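import Pool.Agent.TH366.SC.Main

/-!
# Singular projective cyclic coverings of projective space along arbitrary hyperplane arrangements

Let `k` be a finitely generated field, `l_1, …, l_m` linear forms in `2 d + 1` variables over `k`,
in arbitrary position, `N ≥ 2` invertible in `k`, `a_1, …, a_m` prime to `N` with `∑ a_i = N e`, and
`X : y ^ N = ∏ l_i(x) ^ (a_i)` in the weighted projective space `P(1, …, 1, e)`: a projective variety
of dimension `2 d` with an action of the `N`-th roots of unity, singular over the intersections of the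
hyperplanes (also in codimension one if some `a_i > 1`). We assume that the sum of the `a_i` over the
hyperplanes through any dense edge of the arrangement is prime to `N` (hyperplanes in general
position, or any `m = N = p` hyperplanes without common point with `a_i = 1`, `p` prime). As the points
over the hyperplanes are fixed by the roots of unity, `H_c^i(X)` is the sum of `H^i(P^{2d})` and, for
`i = 2 d` only, of the part `V` of the nontrivial characters. So
`H_{2j}(X, Q_l(j))` is the line of the class of the linear section of dimension `j`, if `j ≠ d`, and the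
dual of `(Q_l(-d) ⊕ V)(d)`, if `j = d`; the theorem is about `j = d`.
-/

set_option autoImplicit false

namespace Pool.Agent.Results.MP_4776b1_ag.CyclicCoversOfArrangements

open Finset Polynomial Pool.Agent.TH366.HC

/-- **Jannsen's conjectures for singular cyclic coverings along arbitrary arrangements.**

Let `G` be the Galois group of `k`, `V` the representation on the part of `H_c^{2d}(X)` that belongs to
the nontrivial characters of the covering group, the sum of the parts `W χ` of the characters
`χ + 1 = 1, …, N - 1`; `φ` a geometric Frobenius element at a place of good reduction with the residue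
field `κ` with `c ^ f` elements, which contains the primitive `N`-th root of unity `z`; `l_i` also
denotes the reductions. The Grothendieck-Lefschetz trace formula is the hypothesis `CoverTrace`.
Suppose that for every `0 < χ < N` there is a `j` prime to `N` such that the mean over `0 ≤ s < f` of
`∑_i ⟨j χ a_i c ^ s / N⟩` is less than `d + 1` (`⟨ ⟩` is the fractional part).

Theorem: (1) for all finite `L / κ` the number of solutions `(x, y)`, `x ≠ 0`, of
`y ^ N = ∏ l_i(x) ^ (a_i)` over `L`, which is `|L| - 1` times the number of points of `X` over `L`, is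
`(|L| - 1) (1 + |L| + … + |L| ^ (2d) + tr (φ ^ [L : κ] | V))`.

(2) (`ε` the `-d`-th power of the cyclotomic character, so that `ε φ = |κ| ^ d`; `E × V` is
`H_c^{2d}(X) = Q_l(-d) ⊕ V`, the functionals `F` form the homology.) For all subgroups `H` of finite
index of `G` the invariants of `H` in `H_{2d}(X, E(d))` are the line of the functional
`x ↦ x.1`, which is the class of the linear section of dimension `d`: over all finite extensions of `k`
they are spanned by the class of a subvariety, (a) and (b) hold.

(3) For all `s > 0` the number `|κ| ^ (d s)` is a simple root of the characteristic polynomial of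
Frobenius on `H_c^{2d}(X)` over the extension of degree `s` of `κ`: the L-function of the reduction
of `X` has at `d` a pole of the order `1 = rank B_d`. -/
theorem result (N c d f : ℕ) (hN : 2 ≤ N) [Fact c.Prime]
    (κ : Type) [Field κ] [Fintype κ] [CharP κ c] (hf : Fintype.card κ = c ^ f) (z : κ)
    (hz : IsPrimitiveRoot z N) (E : Type) [Field E] [CharZero E] [IsAlgClosed E] (μ : E)
    (hμ : IsPrimitiveRoot μ N) (ι : Type) [Fintype ι] [Nonempty ι] (l : ι → Fin (2 * d + 1) → κ)
    (a : ι → ℕ) (ha : ∀ i, (a i).Coprime N)
    (hj : ∀ χ, 0 < χ → χ < N → ∃ j, j.Coprime N ∧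
      ∑ i, ∑ s ∈ range f, (j * χ * a i * c ^ s) % N < f * N * (d + 1))
    (G : Type) [Group G] (V : Type) [AddCommGroup V] [Module E V] [FiniteDimensional E V]
    (ρ : Representation E G V) (W : Fin (N - 1) → Submodule E V) (hW : DirectSum.IsInternal W)
    (hstab : ∀ χ g, ∀ v ∈ W χ, ρ g v ∈ W χ) (φ : G)
    (hφ : ∀ χ : Fin (N - 1), CoverTrace κ N d l a z μ (χ + 1) ((ρ φ).restrict (hstab χ φ))) :
    (∀ (L : Type) [Field L] [Fintype L] [Algebra κ L],
      (Set.ncard {v : (Fin (2 * d + 1) → L) × L |
          v.1 ≠ 0 ∧ v.2 ^ N = ∏ i, (∑ k, algebraMap κ L (l i k) * v.1 k) ^ a i} : E)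
        = ((Fintype.card L : E) - 1) * (∑ i ∈ range (2 * d + 1), (Fintype.card L : E) ^ i
          + LinearMap.trace E V ((ρ φ) ^ Module.finrank κ L))) ∧
    (∀ (ε : G →* E), ε φ = (Fintype.card κ : E) ^ d → ∀ (H : Subgroup G), H.FiniteIndex →
      ∀ F : E × V →ₗ[E] E,
        (∀ g ∈ H, ∀ x : E × V, F (ε g * x.1, ρ g x.2) = ε g * F x) ↔
          ∃ t : E, ∀ x, F x = t * x.1) ∧
    (∀ s : ℕ, 0 < s →
      (LinearMap.charpoly ((((Fintype.card κ : E) ^ d) ^ s • (LinearMap.id : E →ₗ[E] E)).prodMap
        ((ρ φ) ^ s))).rootMultiplicity (((Fintype.card κ : E) ^ d) ^ s) = 1) := by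
  have key : ∀ M : ℕ, 0 < M → ∀ v : V,
      ((ρ φ) ^ M) v = ((Fintype.card κ : E) ^ d) ^ M • v → v = 0 := fun M hM v hv =>
    Pool.Agent.TH366.SC.no_eig hN κ hf hz hμ l a hj (ρ φ) W hW (fun χ => hstab χ φ) hφ M hM v hv
  refine ⟨fun L _ _ _ => ?_, fun ε hε H hH F => ?_, fun s hs => ?_⟩
  · have h1 := trace_total hN κ hz hμ d l a ha (ρ φ) W hW (fun χ => hstab χ φ) hφ L
    rw [Pool.Agent.TH366.SC.cone_ne hN (fun i k => algebraMap κ L (l i k)) a ha] at h1
    have h2 := mul_geom_sum (Fintype.card L : E) (2 * d + 1)
    rw [mul_add, h2, h1]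
    push_cast
    ring
  · exact Pool.Agent.TH366.SC.functional ρ φ _ key ε hε H hH F
  · exact Pool.Agent.TH366.SC.pole _ _ (key s hs)

/-- The criterion holds if `N` is prime, all `a_i = 1`, the number of the hyperplanes is less than
`N (d + 1)`, and `c = 1` modulo `N` (there are such places if `k` has characteristic `0`). -/
theorem criterion {N c d f : ℕ} (hN : N.Prime) (hc : c % N = 1) (hf : 0 < f) {ι : Type}
    [Fintype ι] (hm : Fintype.card ι < N * (d + 1)) :
    ∀ χ, 0 < χ → χ < N → ∃ j, j.Coprime N ∧
      ∑ _i : ι, ∑ s ∈ range f, (j * χ * 1 * c ^ s) % N < f * N * (d + 1) :=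
  Pool.Agent.TH366.SC.few hN hc hf hm

end Pool.Agent.Results.MP_4776b1_ag.CyclicCoversOfArrangements
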