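import Pool.Agent.TH116.BM.Dual
import Pool.Agent.TH116.BM.LFun

/-!
# Jannsen's Tate conjectures for singular varieties over finite fields

Over a finite field `k` we show that the first of Jannsen's conjectures for ALL varieties (separated
schemes of finite type, singular or not, proper or not), for one prime `ℓ`,

(a) the classes of cycles span the invariants of Frobenius in `H_{2i} (X̄, ℚ_ℓ(i))`,

implies (and is equivalent to) the conjunction, for all varieties and all `i`, of

(b) the group `B_i (X)` of classes of cycles is finitely generated, and `B_i (X) ⊗ ℚ_ℓ` is isomorphic to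
the space of invariants (modulo torsion: some elements of `B_i (X)` are a basis of the group and a basis
of the space of invariants), and

(Q2) the order of `L (X, s) = det (1 - q ^ (-s) F | H^{2i}_c (X̄, ℚ_ℓ))⁻¹` at `s = i` is `- rank B_i (X)`.

No resolution of singularities and no good proper covers are assumed; the semisimplicity of Frobenius
at the eigenvalue `1` is a consequence of (a) for open varieties.

Proof. (a) for all open subvarieties of `X` implies that the generalized eigenspace of Frobenius for
the eigenvalue `1` is spanned by cycle classes. For smooth projective varieties (b) follows by duality,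
as intersection numbers are integers. A general proper variety `X` has a surjective morphism `f : Y → X`,
`Y` smooth projective (alterations); with `W = Y ×_X Y` proper descent and weights show that the
kernel of `f_*` on the generalized eigenspace is the image of `p_* - q_*`, and this is
spanned by differences of classes of cycles, as (a) holds for the possibly singular variety `W`: so the
kernel is rational, and `B_i (X)` is a lattice. Open varieties are treated with the localization
sequence. The order of `L (X, s)` is minus the dimension of the generalized eigenspace.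
-/

set_option autoImplicit false

namespace Pool.Agent.Results.MP_4776b1_ag.FiniteFieldEquivalence

open Pool.Agent.TH116.BM

variable {K : Type} [Field K]

/-- Conjecture (b) for cycles of dimension `m` on `X ∖ B`: the group generated by the classes of cycles
has a basis which is a basis of the space of invariants of Frobenius. -/
def ConjectureB (E : Theory K) {X : E.V} (m : ℕ) (B : Set (E.Pt X)) : Prop :=
  ∃ (n : ℕ) (b : Fin n → E.H (2 * m) m Set.univ B), LinearIndependent K b ∧
    Submodule.span ℤ (Set.range b) = E.cyc m Set.univ B ∧
      ∀ x, E.F x = x ↔ x ∈ Submodule.span K (Set.range b)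

/-- The `L`-function `det (1 - q ^ (-s) Φ | H^{2m}_c (X ∖ B, K))⁻¹`, `Φ` the geometric Frobenius, `q` the
number of elements of the finite field, with its coefficients mapped to the complex numbers by `σ`. As
`H_{2m} (X ∖ B, K(m))` is dual to `H^{2m}_c (X ∖ B, K(m))`, the eigenvalues of `Φ` are the numbers
`α q ^ m` for the eigenvalues `α` of the arithmetic Frobenius `F` on `H_{2m} (X ∖ B, K(m))`. -/
noncomputable def LFunction (E : Theory K) (σ : K →+* ℂ) (q : ℕ) {X : E.V} (m : ℕ)
    (B : Set (E.Pt X)) (s : ℂ) : ℂ :=
  ((((E.F : Module.End K (E.H (2 * m) m Set.univ B)).charpoly.map σ).roots.map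
    fun α => 1 - α * (q : ℂ) ^ ((m : ℂ) - s)).prod)⁻¹

/-- Conjecture Q2 for cycles of dimension `m` on `X ∖ B`: the order of the `L`-function at `s = m` is minus
the rank of the group generated by the classes of cycles. -/
def ConjectureQ2 (E : Theory K) (σ : K →+* ℂ) (q : ℕ) {X : E.V} (m : ℕ) (B : Set (E.Pt X)) :
    Prop :=
  meromorphicOrderAt (LFunction E σ q m B) m =
    ((-(Module.finrank ℤ (E.cyc m (Set.univ : Set (E.Pt X)) B) : ℤ) : ℤ) : WithTop ℤ)

/-- **Over finite fields Jannsen's conjecture (a) for all varieties is equivalent to his conjectures (b)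
and Q2 for all varieties.** -/
theorem result [CharZero K] (E : Theory K) (P : Duality E) (C : Covers E) (σ : K →+* ℂ) (q : ℕ)
    (hq : 1 < q) :
    (∀ (X : E.V) (B : Set (E.Pt X)) (m : ℕ), IsClosed B → E.Tate m Set.univ B) ↔
      ∀ (X : E.V) (B : Set (E.Pt X)) (m : ℕ), IsClosed B →
        ConjectureB E m B ∧ ConjectureQ2 E σ q m B := by
  constructor
  · intro h X B m hB
    have hSP : ∀ m (Y : E.V), E.SP Y → E.Strong m (Set.univ : Set (E.Pt Y)) ∅ := fun m Y _ =>
      E.Strong_of_Tate (Set.empty_subset _) isClosed_empty fun B hB _ _ => h Y B m hB
    have hall : ∀ (m : ℕ) (X : E.V) (A B : Set (E.Pt X)), IsClosed A → B ⊆ A → E.Strong m A B :=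
      fun m X A B hA hB => E.Strong_all m (hSP m) X hA hB
    obtain ⟨n, b, hb, hbZ, hbK⟩ := (E.lat_all P C hall m hB).basis
    have hbK' : Submodule.span K (Set.range b) = E.gen (2 * m) m Set.univ B := by
      rw [hbK]
      exact le_antisymm (fun x hx => E.alg_gen hx) (hall m X _ _ isClosed_univ (Set.subset_univ _))
    have hbZind : LinearIndependent ℤ b := hb.restrict_scalars' ℤ
    refine ⟨⟨n, b, hb, hbZ, fun x => ⟨fun hx => ?_, fun hx => ?_⟩⟩, ?_⟩
    · rw [hbK']
      exact gen_of_fixed hx
    · rw [hbK] at hx
      exact E.alg_fixed hx
    · have h1 : Module.finrank ℤ (E.cyc m (Set.univ : Set (E.Pt X)) B) = n := by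
        rw [← hbZ, finrank_span_eq_card hbZind, Fintype.card_fin]
      have h2 : Module.finrank K (E.gen (2 * m) m (Set.univ : Set (E.Pt X)) B) = n := by
        rw [← hbK', finrank_span_eq_card hb, Fintype.card_fin]
      have h3 := order_charpoly (E.F : Module.End K (E.H (2 * m) m (Set.univ : Set (E.Pt X)) B))
        σ q hq m
      rw [ConjectureQ2, h1]
      rw [h2] at h3
      exact h3
  · intro h X B m hB x hx
    obtain ⟨⟨n, b, -, hbZ, hbK⟩, -⟩ := h X B m hB
    have h1 : x ∈ Submodule.span K (Set.range b) := (hbK x).1 hx
    have h2 : Set.range b ⊆ (E.alg m (Set.univ : Set (E.Pt X)) B : Set _) := by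
      intro y hy
      apply E.cyc_le_alg
      rw [← hbZ]
      exact Submodule.subset_span hy
    exact Submodule.span_le.2 h2 h1

end Pool.Agent.Results.MP_4776b1_ag.FiniteFieldEquivalence
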