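import Pool.Agent.TH118.OR.Family

/-!
# Tate classes on products with powers of surfaces and other varieties with one special place

Let `W` be a Weil cohomology theory with algebraically closed coefficients (étale cohomology with
coefficients in the closure of `ℚ_ℓ`) on a class of smooth projective varieties over the algebraic
closure of a finitely generated field `k`, with an action of a group `Γ` (the Galois
group of `k`) on the cohomology of the varieties under consideration.

Let `X_i` be varieties of arbitrary dimensions for which numerical and homological equivalence
coincide, whose transcendental cohomology `T_i` (the orthogonal complement of all algebraic classes)
is concentrated in the middle degree and irreducible under all subgroups of finite index of `Γ`. For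
every `i` let there be one element `g_i` of `Γ` which acts trivially on the cohomology of `Z`, on the
cohomology of the `X_j` with `j ≠ i` and on the Tate twists, and which acts on `T_i` in one of the
following ways (`GoodAct`).

If the dimension of `X_i` is even:

* (`BlockThreeAct`) as a unipotent map with one Jordan block of size three and all others of size
  one.  Example: surfaces `X_i` with a place of type III, where `N ^ 2` is not zero and the rank
  of `N` is two, for instance a place with only one singular point, a cusp
  `x y z + x ^ p + y ^ q + z ^ r = t`, `1 / p + 1 / q + 1 / r < 1`, of large residue characteristic
  (after a finite extension of `k`);
* (`TwoSimpleAct`) with finite order, such that for `a = 1` or `a = -1` the eigenspace has codimension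
  two and the two other eigenvalues are different, with product one.  Example: a place with
  only one singular point `x ^ 3 + x_1 ^ 2 + ⋯ + x_n ^ 2 = t`, `n = dim X_i`, of residue
  characteristic at least five.  In this case the dimension of `T_i` is supposed to be at least
  five, and there is an element of `Γ` (a Frobenius element) which has two eigenvalues on `T_i` whose
  quotient is not a root of unity (`HyperbolicAct`; this holds if `T_i` is not a Tate motive
  after a finite extension).

If the dimension of `X_i` is odd:

* (`UnipAct`) as a unipotent map different from the identity, `(g_i - 1) ^ 2 = 0` and the rank of
  `g_i - 1` is at most two;
* (`SmallAct`) with finite order, such that for `a = 1` or `a = -1` all other eigenvalues are simple, and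
  `c ^ 2 < 2 d`, where `d` is the dimension of the eigenspace for `a` and `c > 0` its codimension;
* (`IsolatedAct`) with finite order, with two families of eigenvalues whose quotients are isolated,
  without any condition on dimensions.  Example: `X_i` of odd dimension `n` has a place
  with only one singular point `x ^ 2 q + y ^ 3 + ⋯ = t` of the types described in
  MP_3703a7_ag.IsolatedEigenvalues of this run, for abelian varieties.  For the last two types we
  also suppose that `HyperbolicAct` holds.

Theorem.  Let `Y` be a product of `Z` and of powers of different `X_i`, where the exponent of `X_i` is
less than the dimension of `T_i` if the dimension of `X_i` is even.  The Tate conjecture, for cycles of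
all codimensions, holds for `Y` if and only if it holds for `Z`.

For `Z` a point the theorem is unconditional.  It was proved for surfaces with `p_g = 1` (K3 surfaces)
by other methods, and is the subject of other files of this run for ordinary double points; the types
of places for varieties of even dimension which are considered here are new, as is
the mixture of types.

The proof for even dimension: let `L` be the Lie algebra of the skew operators on `T = T_i` which
kill all the multilinear maps from `T` to the cohomology of the other factors which are
equivariant under some subgroup of finite index.  For a unipotent element of the first type the
logarithm is in `L`, and it is a multiple of `e ∧ p`, `e` isotropic, `p` orthogonal to `e` and not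
isotropic.  For an element of finite order the Jordan decomposition of the Frobenius
element gives elements `e ∧ p` and `f ∧ p` of `L`, `e` and `f` the eigenvectors for the simple
eigenvalues, and it is shown that there is one with `p` not isotropic, as otherwise there would be
two families of `L`-stable isotropic subspaces permuted by `Γ`.  Then `e ∧ [Y, e]` is in `L` for all
`Y` in `L`, and with three vectors of the orbit of `e` in general position it follows that `L` is the
whole orthogonal Lie algebra.  By the first fundamental theorem for the orthogonal group, in
degrees less than the dimension of `T`, the Tate classes are combinations of products of
algebraic classes on the factors `X_i`, of the transcendental parts of the diagonals of pairs of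
factors `X_i` and of Tate classes of the remaining factor.
-/

universe u

namespace Pool.Agent.Results.MP_4776b1_ag.GoodElementTowers

open Pool.Agent.H914 Pool.Agent.H281R3.HT Pool.Agent.TH125.Gal Pool.Agent.TH118.OR

/-- **The Tate conjecture for products with powers of varieties with a good element.** -/
theorem result {k : Type u} [Field k] {𝒱 : VarClass k} {ops : CycleOps 𝒱}
    (W : WeilCohomology.{u, 0} ops) [IsAlgClosed W.K] {Γ : Type} [Group Γ] (χ : Γ →* W.Kˣ)
    {ι : Type} (X : ι → GVar W Γ) (Z : GVar W Γ) (h : GoodFamily χ X Z) (S : Set ι)
    (Y : GVar W Γ) (hY : GTower X Z S Y) : TateConjecture χ Y ↔ TateConjecture χ Z :=
  tate_good h hY

end Pool.Agent.Results.MP_4776b1_ag.GoodElementTowers
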