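import Pool.Agent.TH639.SN.Rep

/-!
Cyclic coverings `y ^ N = F(x_1, ..., x_m)` of affine and projective space over a finitely generated
field, of degree `N = ℓ ^ a`: a criterion at one place of good reduction for the absence of Tate
classes in the middle dimension.
-/

set_option autoImplicit false
set_option maxHeartbeats 1000000

open Polynomial

namespace Pool.Agent.Results.MP_4776b1_ag.OneGoodPlace

open Pool.Agent.TH639.SN

section defs

variable {k : Type} [Field k]

/-- The ideal generated by the form or polynomial `F` and its partial derivatives. -/
noncomputable def jacobianIdeal {m : ℕ} (F : MvPolynomial (Fin m) k) :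
    Ideal (MvPolynomial (Fin m) k) :=
  Ideal.span (insert F (Set.range fun i => MvPolynomial.pderiv i F))

/-- The polynomial `F` has degree `d`, prime to `ℓ`; the affine hypersurface `F = 0` is smooth; and
the leading form of `F` has no singular zero different from the origin, that is, the projective
hypersurface at infinity is smooth. -/
structure IsBranch (ℓ d : ℕ) {m : ℕ} (F : MvPolynomial (Fin m) k) : Prop where
  degree : F.totalDegree = d
  prime_to : ¬ ℓ ∣ d
  smooth : jacobianIdeal F = ⊤
  smooth_at_infinity : ∀ i, ∃ n : ℕ,
    MvPolynomial.X i ^ n ∈ jacobianIdeal (MvPolynomial.homogeneousComponent d F)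

/-- The polynomial `L` is the numerator of the zeta function: the zeta function of the affine
hypersurface `F = 0` of dimension `m - 1` is `L(T) / (1 - q ^ (m - 1) T)`. -/
def IsNumerator {m : ℕ} (F : MvPolynomial (Fin m) k) (L : ℤ[X]) : Prop :=
  zetaInv m F * (L : PowerSeries ℤ) =
    ((1 - C ((Nat.card k : ℤ) ^ (m - 1)) * X : ℤ[X]) : PowerSeries ℤ)

/-- The polynomial `det(1 - T φ)` of the endomorphism `φ`, which is the reverse of its characteristic
polynomial, is the product over the characters `χ ^ j`, `0 < j < N`, of the products
`charProduct (χ ^ j) m F` over the closed points of affine space. The values of `χ` are in the ring of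
the elements of `E` which are integral over the integers. -/
def IsFrobenius {E V : Type} [Field E] [AddCommGroup V] [Module E V] [FiniteDimensional E V]
    (χ : MulChar k (integralClosure ℤ E)) (N : ℕ) {m : ℕ} (F : MvPolynomial (Fin m) k)
    (φ : Module.End E V) : Prop :=
  PowerSeries.map (algebraMap (integralClosure ℤ E) E)
    (∏ j ∈ Finset.Ico 1 N, charProduct (χ ^ j) m F) = (φ.charpoly.reverse : PowerSeries E)

theorem dvd_card {A : Type} [CommRing A] [Finite k] {ℓ a : ℕ} (ha : a ≠ 0) {χ : MulChar k A}
    (hχ : orderOf χ = ℓ ^ a) : ℓ ∣ Nat.card k - 1 := by
  have h1 : χ ^ (Nat.card k - 1) = 1 := by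
    have hk1 : 1 < Nat.card k := Finite.one_lt_card
    apply MulChar.ext
    intro a
    have := Fintype.ofFinite k
    rw [MulChar.pow_apply' χ (by omega), MulChar.one_apply a.isUnit, ← map_pow,
      Nat.card_eq_fintype_card, FiniteField.pow_card_sub_one_eq_one _ a.ne_zero, map_one]
  have h2 := orderOf_dvd_of_pow_eq_one h1
  rw [hχ] at h2
  exact (dvd_pow_self ℓ ha).trans h2

end defs

/-- **The Tate conjecture for cyclic coverings of space over finitely generated fields.**

Let `ℓ` be a prime, `N = ℓ ^ a > 1`, `m = 2 c > 0`, and `K` a finitely generated field whose
characteristic is not `ℓ`, for instance a number field. Let `R` be a normal domain with field of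
fractions `K`, finitely generated as a ring, `Φ` a polynomial in `m` variables over `R`, of degree `d`
prime to `ℓ`, and let `U` be the affine variety `y ^ N = Φ(x_1, ..., x_m)` over `K`, and `X` the
normal projective variety over `K`, finite over projective space, which contains `U`; in general it is
singular. Suppose that `R` has a maximal ideal with residue field `k` with `q` elements, where `N`
divides `q - 1`, such that the reduction `F` of `Φ` has degree `d` and is as in `IsBranch`: the closure
of `F = 0` in projective space is smooth and transversal to the hyperplane at infinity. The zeta function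
of the affine hypersurface `F = 0` over `k` is `L(T) / (1 - q ^ (m - 1) T)`, with a polynomial `L` of
degree `(d - 1) ^ m`.

Let `G` be the absolute Galois group of `K`, let `E` be an algebraic closure of a field of `λ`-adic
numbers, for a prime `λ` which is not the characteristic of `k`, and `V` the cohomology with compact
support of `U` in degree `m`, over an algebraic closure of `K`, with coefficients in `E`. It is unramified
at the maximal ideal of `R`, by the smooth and proper base change theorems (the branch divisor has
relative normal crossings), and the Frobenius element `φ` acts on it as on the cohomology with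
compact support of the variety `y ^ N = F` over an algebraic closure of `k`, that is, the direct sum of
the cohomology spaces of affine space with coefficients in the Kummer sheaves of the characters
`χ ^ j`, `0 < j < N`, for `F`; so `IsFrobenius` holds by the trace formula. The other cohomology with
compact support of `U` is the space for the degree `2 m`, of dimension one. Let `ε` be the
homomorphism by which `G` acts on the Tate twist with `ε φ = q ^ c`, the inverse of the `c`-th power
of the cyclotomic character.

Theorem. Suppose that `ℓ` does not divide `L(1)`, that is, Frobenius has no fixed vector different from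
zero on the cohomology with compact support of degree `m - 1` of the affine hypersurface `F = 0` over
an algebraic closure of `k` with coefficients in the field with `ℓ` elements. Let `H` be a subgroup of
`G` which contains a power of `φ` whose exponent is a power of `ℓ`, for instance the absolute Galois
group of a finite extension `K'` of `K` with a place over the given one with residue degree a power of
`ℓ`; all Galois extensions of `ℓ`-power degree have this property, and `K' = K`. Then no vector
different from zero in `V` is multiplied by `ε` under `H`, and no linear functional on `V` different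
from zero either.

Consequences for the question. Put `i = c`. The homology of `U` of degree `2 i`, with twist `i`, is the
space of the linear functionals on `V`, twisted by `ε`, and its invariants under `H` are the functionals
`f` with `f (g v) = ε(g) f(v)`. So it has no invariants; the homology in the other even degrees is zero,
except for the fundamental class. So (a) and (b) of the question hold for `U` over `K'`, in all degrees
`2 i`. The covering is totally ramified along the hyperplane at infinity, because `ℓ` does not divide
`d`, so that the complement of `U` in `X` is homeomorphic to projective space of dimension `m - 1`,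
even over an algebraic closure; by the exact sequence of homology (a) and (b) hold for `X` over `K'`
in all degrees, the classes being those of linear sections. So one count of points at one place decides
the Tate conjecture, in all degrees, for coverings of any even dimension over number fields. -/
theorem result (ℓ : ℕ) (hℓ : ℓ.Prime) (a : ℕ) (ha : a ≠ 0) (k : Type) [Field k] [Finite k]
    (E : Type) [Field E] [CharZero E] [IsAlgClosed E] (χ : MulChar k (integralClosure ℤ E))
    (hχ : orderOf χ = ℓ ^ a) (c : ℕ) (_hc : 0 < c) (d : ℕ)
    (F : MvPolynomial (Fin (2 * c)) k) (_hF : IsBranch ℓ d F) (L : ℤ[X]) (hL : IsNumerator F L)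
    (hL1 : ¬ (ℓ : ℤ) ∣ L.eval 1) (G V : Type) [Group G] [AddCommGroup V] [Module E V]
    [FiniteDimensional E V] (ρ : Representation E G V) (φ : G)
    (hφ : IsFrobenius χ (ℓ ^ a) F (ρ φ)) (ε : G →* E) (hε : ε φ = (Nat.card k : E) ^ c)
    (H : Subgroup G) (s : ℕ) (hs : φ ^ (ℓ ^ s) ∈ H) :
    (∀ v : V, (∀ g ∈ H, ρ g v = ε g • v) → v = 0) ∧
    (∀ f : V →ₗ[E] E, (∀ g ∈ H, ∀ v, f (ρ g v) = ε g * f v) → f = 0) := by
  have hpos : 0 < ℓ ^ s := pow_pos hℓ.pos s
  have hχ1 : ∀ j ∈ Finset.Ico 1 (ℓ ^ a), (χ ^ j) ^ (ℓ ^ a) = 1 := fun j _ => by
    rw [← pow_mul, mul_comm, pow_mul, ← hχ, pow_orderOf_eq_one, one_pow]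
  have key : ∀ β : E, β = ((Nat.card k : E) ^ c) ^ (ℓ ^ s) →
      IsUnit (algebraMap E (Module.End E V) β - (ρ φ) ^ (ℓ ^ s)) := by
    intro β hβ
    by_contra hu
    obtain ⟨α, hα, h0⟩ := exists_eigenvalue hpos hu
    rw [hβ, ← pow_mul] at hα
    have hα0 : α ≠ 0 := by
      rintro rfl
      rw [zero_pow hpos.ne'] at hα
      have h1 : (Nat.card k : E) ^ (c * ℓ ^ s) ≠ 0 := by
        apply pow_ne_zero
        have : 0 < Nat.card k := Nat.card_pos
        exact_mod_cast this.ne'
      exact h1 hα.symm
    refine no_eigenvalue hℓ (dvd_card ha hχ) (Finset.Ico 1 (ℓ ^ a)) (fun j => χ ^ j) hχ1 F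
      (w := 2 * c - 1) hL hL1 hφ hα ?_
    letI := invertibleOfNonzero hα0
    have h2 := (Polynomial.eval₂_reverse_eq_zero_iff (RingHom.id E) α (ρ φ).charpoly).2
      (by rw [Polynomial.eval₂_id]; exact h0)
    rwa [invOf_eq_inv, Polynomial.eval₂_id] at h2
  have hε' : ε (φ ^ (ℓ ^ s)) = ((Nat.card k : E) ^ c) ^ (ℓ ^ s) := by rw [map_pow, hε]
  constructor
  · intro v hv
    by_contra hv0
    refine not_unit_of_vec hv0 ?_ (key _ hε')
    rw [← map_pow]
    exact hv _ hs
  · intro f hf
    by_contra hf0
    refine not_unit_of_fun hf0 ?_ (key _ hε')
    intro v
    rw [← map_pow]
    exact hf _ hs v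

end Pool.Agent.Results.MP_4776b1_ag.OneGoodPlace
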